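import Mathlib
import Pool.Agent.K6.H83.GL.Brown

set_option autoImplicit false

/-! # Brownian motion in the number of primes with a given primitive root

Let `D ≠ 1` be a squarefree integer, `D ≡ 1 mod 4`; the integers with squarefree part `D` are the numbers
`D m²`, `m ≥ 1`. Let `P(n, y)` be the number of primes `p ≤ y` modulo which `n` is a primitive root, and
`E(D, y) = ∑ 2 φ(p - 1) / (p - 1)`, the sum over the odd primes `p ≤ y` with `(D / p) = -1`.
Then `E(D, x) ~ δ(D) π(x)` with the density `δ(D)` of Q1, and for a random integer `D m²`, `m ≤ N(x)`,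
where `log N(x) / log x` tends to infinity, the random function
`u ↦ (P(D m², u x) - E(D, u x)) / √(v(D) π(x))` of `u ∈ [0, 1]` tends, in the sense of the weak convergence of
all its finite-dimensional distributions, to the standard Brownian motion: its values at any points
`u₁, …, u_h` of `[0, 1]` tend jointly in law to the centred Gaussian vector with covariances
`min(u_i, u_j)`. -/

namespace Pool.Agent.Results.MP_991e92_nt.BrownianLaw

open Finset Filter Topology Classical

/-- the number of primes `p ≤ x` modulo which `n` is a primitive root -/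
noncomputable def P (n : ℤ) (x : ℕ) : ℕ :=
  ((Finset.range (x + 1)).filter (fun p : ℕ => p.Prime ∧ orderOf (n : ZMod p) = p - 1)).card

/-- the density of Q1 for integers with squarefree part `D`:
`(1 - μ(|D|) ∏_{q ∣ D} 1 / (q² - q - 1)) ∏_p (1 - 1 / (p (p - 1)))` -/
noncomputable def δ (D : ℤ) : ℝ :=
  (1 - ((ArithmeticFunction.moebius D.natAbs : ℤ) : ℝ) *
      ∏ q ∈ D.natAbs.primeFactors, (1 / ((q : ℝ) ^ 2 - (q : ℝ) - 1))) *
    ∏' p : Nat.Primes, (1 - 1 / (((p : ℕ) : ℝ) * (((p : ℕ) : ℝ) - 1)))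

/-- the variance constant -/
noncomputable def v (D : ℤ) : ℝ :=
  δ D - 2 * ((1 - ((ArithmeticFunction.moebius D.natAbs : ℤ) : ℝ) *
      ∏ q ∈ D.natAbs.primeFactors,
        ((2 * (q : ℝ) - 1) / ((q : ℝ) ^ 3 - (q : ℝ) ^ 2 - 2 * (q : ℝ) + 1))) *
    ∏' p : Nat.Primes, (1 - (2 * ((p : ℕ) : ℝ) - 1) / (((p : ℕ) : ℝ) ^ 2 * (((p : ℕ) : ℝ) - 1))))

/-- `∑ 2 φ(p - 1) / (p - 1)` over the odd primes `p ≤ x` with `(D / p) = -1` -/
noncomputable def E (D : ℤ) (x : ℕ) : ℝ :=
  ∑ p ∈ (Finset.range (x + 1)).filter (fun p : ℕ => p.Prime ∧ p ≠ 2 ∧ jacobiSym D p = -1),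
    2 * ((Nat.totient (p - 1) : ℝ) / ((p : ℝ) - 1))

lemma E_eq (D : ℤ) (x : ℕ) : E D x = Pool.Agent.H730R2.AA.mainT D x := by
  unfold E Pool.Agent.H730R2.AA.mainT
  have hsub : (Finset.range (x + 1)).filter (fun p : ℕ => p.Prime ∧ p ≠ 2 ∧ jacobiSym D p = -1) ⊆
      Pool.Agent.H730R2.AA.PR D x := by
    intro p hp
    unfold Pool.Agent.H730R2.AA.PR
    rw [mem_filter] at hp ⊢
    refine ⟨hp.1, hp.2.1, hp.2.2.1, ?_⟩
    intro h
    have : Fact p.Prime := ⟨hp.2.1⟩
    have h2 : jacobiSym D p = legendreSym p D := (jacobiSym.legendreSym.to_jacobiSym p D).symm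
    have h3 : legendreSym p D = 0 := by
      rw [legendreSym.eq_zero_iff, ZMod.intCast_zmod_eq_zero_iff_dvd]
      exact h
    have h4 := hp.2.2.2
    rw [h2, h3] at h4
    norm_num at h4
  rw [← Finset.sum_subset hsub]
  · refine Finset.sum_congr rfl fun p hp => ?_
    rw [mem_filter] at hp
    rw [hp.2.2.2]
    unfold Pool.Agent.H730R2.AA.rho
    rw [Nat.cast_sub hp.2.1.one_le]
    push_cast
    ring
  · intro p hp hp2
    unfold Pool.Agent.H730R2.AA.PR at hp
    rw [mem_filter] at hp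
    have : Fact p.Prime := ⟨hp.2.1⟩
    have hne : (D : ZMod p) ≠ 0 := by
      rw [Ne, ZMod.intCast_zmod_eq_zero_iff_dvd]
      exact hp.2.2.2
    have h2 : jacobiSym D p = legendreSym p D := (jacobiSym.legendreSym.to_jacobiSym p D).symm
    rcases legendreSym.eq_one_or_neg_one p hne with h | h
    · rw [h2, h]
      norm_num
    · exfalso
      apply hp2
      rw [mem_filter]
      exact ⟨hp.1, hp.2.1, hp.2.2.1, by rw [h2, h]⟩

/-- the value at `u` of the normalised error process of the integer `n`, for the squarefree number `D` -/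
noncomputable def W (D n : ℤ) (x : ℕ) (u : ℝ) : ℝ :=
  ((P n ⌊u * x⌋₊ : ℝ) - E D ⌊u * x⌋₊) / √(v D * (Nat.primeCounting x : ℝ))

theorem result (D : ℤ) (hD : Squarefree D) (hD4 : D % 4 = 1) (hD1 : D ≠ 1) :
    Tendsto (fun x : ℕ => E D x / (Nat.primeCounting x : ℝ)) atTop (𝓝 (δ D)) ∧ 0 < v D ∧
    ∀ N : ℕ → ℕ, Tendsto (fun x : ℕ => Real.log (N x) / Real.log x) atTop atTop →
      ∀ (h : ℕ) (u : Fin h → ℝ), (∀ i, 0 ≤ u i ∧ u i ≤ 1) →
        (Matrix.of fun i j => min (u i) (u j)).PosSemidef ∧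
        ∀ f : BoundedContinuousFunction (EuclideanSpace ℝ (Fin h)) ℝ,
          Tendsto (fun x : ℕ =>
              (∑ m ∈ Finset.Icc 1 (N x), f (WithLp.toLp 2 (fun i => W D (D * (m : ℤ) ^ 2) x (u i)))) /
                (N x : ℝ)) atTop
            (𝓝 (∫ z, f z ∂(ProbabilityTheory.multivariateGaussian 0
              (Matrix.of fun i j => min (u i) (u j))))) := by
  have hv : Pool.Agent.N430.AD.vD D = v D := by
    unfold Pool.Agent.N430.AD.vD v δ
    rw [Pool.Agent.N430.AD.densK_one D hD, Pool.Agent.N430.AD.densK_two D hD]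
  refine ⟨?_, ?_, ?_⟩
  · have h := Pool.Agent.H730R2.AA.main_lim D hD hD4 hD1
    refine h.congr fun x => ?_
    rw [E_eq]
  · rw [← hv]
    exact Pool.Agent.N430.AD.vD_pos D hD hD4 hD1
  · intro N hN h u hu
    have key := Pool.Agent.K6.H83.GL.brown D hD hD4 hD1 N (Pool.Agent.N430.CLT.growth N hN) u hu
    refine ⟨key.1, fun f => ?_⟩
    refine (key.2 f).congr fun x => ?_
    unfold Pool.Agent.N430.CLT.avg
    congr 1
    refine Finset.sum_congr rfl fun m _ => ?_
    beta_reduce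
    congr 2
    funext i
    unfold W
    rw [E_eq, hv]
    unfold Pool.Agent.H730R2.AA.cnt P
    congr!

end Pool.Agent.Results.MP_991e92_nt.BrownianLaw
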