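import Mathlib
import Pool.Agent.N430.PS.Dens
import Pool.Agent.K6.H61.AF.Prog

set_option autoImplicit false

/-! # Artin's conjecture in every short interval and in every arithmetic progression of length `H`, for the
primes up to `H ^ (2 - ε)`

Let `P(n, x)` be the number of primes `p ≤ x` modulo which `n` is a primitive root. For an integer `B` and
an exponent `r ≥ 1` let `E(B, r, x) = ∑_{p ≤ x} G(B, r, p)`, where `G(B, r, p)` is the proportion of the
`a ∈ [1, p - 1]` for which `B a ^ r` is a primitive root modulo `p`. For `D ≡ 1 mod 4` squarefree, `D ≠ 1`,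
`E(D, 2, x)` is asymptotic to `δ(D) π(x)`, with the density `δ(D)` of Q1.

Let `0 < η ≤ 1 / 2`. There are `c > 0` and `X₀` such that for all `Y ≥ X ≥ X₀`, all `H ≥ Y ^ (1/2 + η)`, EVERY
integer `a` (of any size) and EVERY `d ≠ 0` with at most `X ^ (1 - η)` prime factors: for all integers `B`
and all `r ≥ 1`, all but at most `X ^ (-c) H` of the terms `n = a + d m`, `1 ≤ m ≤ H`, of the progression
satisfy `|P(B n ^ r, x) - E(B, r, x)| ≤ x ^ (1 - c)` for EVERY `x` with `X ≤ x ≤ Y`.

For `d = 1` these are the intervals of length `H` in arbitrary position, and the upper end `Y = H ^ (2 - ε)`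
of the range of `x` depends only on the length. For `B = D`, `r = 2` the bases are the integers `D n²` with
squarefree part `D`, and the count is `δ(D) π(x)` up to an error `o(π(x))`.

Proof: variance over the progression; Burgess' bound for the product of two characters modulo two different
primes, over intervals in arbitrary position.

Library: helper430 (expansion of the indicator function, density), helper647, helper471, helper165, helper27
(Burgess' method, complete sums modulo a prime). -/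

namespace Pool.Agent.Results.MP_991e92_nt.EveryProgression

open Finset Filter Topology Classical

/-- the number of primes `p ≤ x` modulo which `n` is a primitive root -/
noncomputable def P (n : ℤ) (x : ℕ) : ℕ :=
  ((Finset.range (x + 1)).filter (fun p : ℕ => p.Prime ∧ orderOf (n : ZMod p) = p - 1)).card

/-- the proportion of the `a` in `[1, p-1]` for which `B a ^ r` is a primitive root modulo `p` -/
noncomputable def G (B : ℤ) (r p : ℕ) : ℝ :=
  (((Finset.Icc 1 (p - 1)).filter
    (fun a : ℕ => orderOf ((B * (a : ℤ) ^ r : ℤ) : ZMod p) = p - 1)).card : ℝ) / ((p : ℝ) - 1)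

/-- `∑_{p ≤ x} G(B, r, p)` -/
noncomputable def E (B : ℤ) (r x : ℕ) : ℝ :=
  ∑ p ∈ (Finset.range (x + 1)).filter Nat.Prime, G B r p

/-- the density of Q1 for integers with squarefree part `D`:
`(1 - μ(|D|) ∏_{q ∣ D} 1 / (q² - q - 1)) ∏_p (1 - 1 / (p (p - 1)))` -/
noncomputable def δ (D : ℤ) : ℝ :=
  (1 - ((ArithmeticFunction.moebius D.natAbs : ℤ) : ℝ) *
      ∏ q ∈ D.natAbs.primeFactors, (1 / ((q : ℝ) ^ 2 - (q : ℝ) - 1))) *
    ∏' p : Nat.Primes, (1 - 1 / (((p : ℕ) : ℝ) * (((p : ℕ) : ℝ) - 1)))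

theorem result :
    (∀ D : ℤ, Squarefree D → D % 4 = 1 → D ≠ 1 →
      Tendsto (fun x : ℕ => E D 2 x / (Nat.primeCounting x : ℝ)) atTop (𝓝 (δ D))) ∧
    ∀ η : ℝ, 0 < η → η ≤ 1 / 2 → ∃ c : ℝ, 0 < c ∧ ∃ X₀ : ℕ, ∀ X Y H : ℕ, X₀ ≤ X → X ≤ Y →
      (Y : ℝ) ^ (1 / 2 + η) ≤ H → ∀ a d : ℤ, d ≠ 0 →
      (d.natAbs.primeFactors.card : ℝ) ≤ (X : ℝ) ^ (1 - η) → ∀ (B : ℤ) (r : ℕ), 1 ≤ r →
      (((Finset.Icc 1 H).filter (fun m : ℕ => ∃ x : ℕ, X ≤ x ∧ x ≤ Y ∧
        (x : ℝ) ^ (1 - c) < |(P (B * (a + d * (m : ℤ)) ^ r) x : ℝ) - E B r x|)).card : ℝ) ≤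
        (X : ℝ) ^ (-c) * H := by
  refine ⟨?_, ?_⟩
  · intro D hD hD4 hD1
    exact Pool.Agent.N430.PS.EE_lim D hD hD4 hD1
  · intro η hη hη1
    obtain ⟨c, hc, X₀, h⟩ := Pool.Agent.K6.H61.AF.prog η hη hη1
    refine ⟨c, hc, X₀, fun X Y H hX hXY hH a d hd hdω B r hr => ?_⟩
    exact h X Y H hX hXY hH a d hd hdω B r (by omega)

end Pool.Agent.Results.MP_991e92_nt.EveryProgression
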