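import Pool.Agent.K6.H61.SI.Tuple
import Pool.Agent.K6.H61.SI.Dens

set_option autoImplicit false

/-! # The corrected density for several bases at the same time, in progressions and in arbitrary sets of primes

Let `D_1, ..., D_r` be squarefree integers, not `1`, congruent to `1` modulo `4` (not necessarily distinct or
independent). For almost all tuples `m` with `m_i ≤ N` the number of the primes `p ≤ x` of ANY given set `S` of
primes modulo which all the integers `D_i m_i ^ 2` are primitive roots is the sum over these primes of the products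
of the local densities `(1 - (D_i / p)) φ(p - 1) / (p - 1)`, up to an error `ε π(x)`, for EVERY `x` with
`(log N) ^ C ≤ x ≤ exp ((log N) ^ B)`; the number of the exceptional tuples is at most `N ^ (r - 1 + θ)`.

For the primes `p ≡ a mod f` this sum is asymptotic to `δ π(x)`, where `δ = δ D f a` is the density expected for the
primes `p ≡ a mod f` with the `r` primitive roots: the product over the primes `q` of the densities of the
conditions at `q` times a finite sum over the subsets `U` of the bases, which contains the correction factors of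
all the quadratic fields `ℚ(√(∏_{i ∈ U} D_i))` (they are entangled with the cyclotomic fields and with each other).
For `r = 1` and `f = 1` the number `δ` is the density of Q1.

Method: the deviation over a set `S` is reduced to the deviation over all primes (starting files
`Pool.Agent.N734.AP`, `Pool.Agent.R345.AP`) by twisting the bases at the primes outside `S` with residues chosen by a
greedy argument such that the contribution of these primes has square root cancellation for most of the exceptional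
`m`; induction on `r`; the mean value is computed by peeling off the primes up to a constant one by one. -/

namespace Pool.Agent.Results.MP_991e92_nt.SimultaneousBases

open Finset Filter Topology

/-- the number of the primes `p ≤ x`, `p ∈ S`, modulo which all the numbers `D i * m i ^ 2` are primitive roots -/
noncomputable def P {r : ℕ} (D : Fin r → ℤ) (S : Set ℕ) (m : Fin r → ℕ) (x : ℕ) : ℕ :=
  Nat.card {p : ℕ // p ≤ x ∧ p.Prime ∧ p ∈ S ∧
    ∀ i, orderOf ((D i * (m i : ℤ) ^ 2 : ℤ) : ZMod p) = p - 1}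

/-- the local density at `p` of the bases `D m ^ 2`: the proportion of the residues `m ≠ 0` modulo `p` such that
`D m ^ 2` is a primitive root; it is `0` for `p = 2` and for `p ∣ D` by convention -/
noncomputable def g (D : ℤ) (p : ℕ) : ℝ :=
  if p = 2 ∨ (p : ℤ) ∣ D then 0
  else (1 - (jacobiSym D p : ℝ)) * ((Nat.totient (p - 1) : ℝ) / ((p - 1 : ℕ) : ℝ))

open Classical in
/-- the sum of the products of the local densities over the primes `p ≤ x` in `S` -/
noncomputable def E {r : ℕ} (D : Fin r → ℤ) (S : Set ℕ) (x : ℕ) : ℝ :=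
  ∑ p ∈ (range (x + 1)).filter (fun p => p.Prime ∧ p ∈ S), ∏ i, g (D i) p

/-- `(1 - (1 - 1 / q) ^ r) / (q - 1)`: the density of the primes `p ≡ 1 mod q` for which one of `r` independent
numbers is a `q`-th power modulo `p` -/
noncomputable def c (r q : ℕ) : ℝ := (1 - (1 - 1 / (q : ℝ)) ^ r) / ((q : ℝ) - 1)

/-- the primes that divide `D i` for an odd number of the `i ∈ U`, i.e. the prime factors of the squarefree part
of `∏_{i ∈ U} D i` -/
noncomputable def T {r : ℕ} (D : Fin r → ℤ) (U : Finset (Fin r)) : Finset ℕ :=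
  (∏ i, (D i).natAbs).primeFactors.filter (fun q => Odd #(U.filter (fun i => (q : ℤ) ∣ D i)))

/-- the expected density of the primes `p ≡ a mod f` with the primitive roots `D i * m i ^ 2` for all `i` -/
noncomputable def δ {r : ℕ} (D : Fin r → ℤ) (f a : ℕ) : ℝ :=
  (1 / (f.totient : ℝ)) *
    (∏ q ∈ f.primeFactors.filter (fun q => a ≡ 1 [MOD q]), (1 - 1 / (q : ℝ)) ^ r) *
    (∏' q : Nat.Primes, (if (q : ℕ) ∣ f then (1 : ℝ) else 1 - c r q)) *
    ∑ U : Finset (Fin r), (-1 : ℝ) ^ #U *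
      ∏ q ∈ T D U, (if q ∣ f then ((jacobiSym (a : ℤ) q : ℤ) : ℝ) else -(c r q) / (1 - c r q))

/-- the `x` of the range -/
def InRange (C B : ℝ) (N x : ℕ) : Prop :=
  (Real.log N) ^ C ≤ x ∧ (x : ℝ) ≤ Real.exp ((Real.log N) ^ B)

open Classical in
/-- the tuples `m` with `1 ≤ m i ≤ N` such that `P D S m x` differs from `M x` by more than `ε π(x)` for some `x`
of the range -/
noncomputable def exceptions {r : ℕ} (D : Fin r → ℤ) (S : Set ℕ) (M : ℕ → ℝ) (ε C B : ℝ) (N : ℕ) :
    Finset (Fin r → ℕ) :=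
  (Fintype.piFinset (fun _ => Icc 1 N)).filter (fun m => ∃ x : ℕ, InRange C B N x ∧
    ε * (Nat.primeCounting x : ℝ) < |(P D S m x : ℝ) - M x|)

open Pool.Agent.K6.H61.SI (iP iP_nonneg iP_le iP_true iP_false devT badT tuples dens dens_lim dens_one gd gd_eq)
open Pool.Agent.H386R2.Artin (PP tlog)
open Pool.Agent.H771R4.SE (Dat dSq)

lemma g_eq (D : ℤ) (p : ℕ) : g D p = gd D p := rfl

lemma δ_eq {r : ℕ} (D : Fin r → ℤ) (f a : ℕ) : δ D f a = dens D f a := rfl

lemma iP_and (A B : Prop) : iP A * iP B = iP (A ∧ B) := by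
  by_cases hA : A
  · by_cases hB : B
    · rw [iP_true hA, iP_true hB, iP_true ⟨hA, hB⟩, one_mul]
    · rw [iP_false hB, iP_false (show ¬ (A ∧ B) from fun h => hB h.2), mul_zero]
  · rw [iP_false hA, iP_false (show ¬ (A ∧ B) from fun h => hA h.1), zero_mul]

lemma iP_forall {r : ℕ} (Q : Fin r → Prop) : ∏ i, iP (Q i) = iP (∀ i, Q i) := by
  by_cases h : ∀ i, Q i
  · rw [iP_true h]
    exact Finset.prod_eq_one fun i _ => iP_true (h i)
  · rw [iP_false h]
    push Not at h
    obtain ⟨i, hi⟩ := h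
    exact Finset.prod_eq_zero (mem_univ i) (iP_false hi)

lemma P_eq {r : ℕ} (D : Fin r → ℤ) (d : Fin r → Dat)
    (hd : ∀ i (p : ℕ) (b : ZMod p), (d i).Q p b ↔ orderOf ((D i : ZMod p) * b ^ 2) = p - 1)
    (S : Set ℕ) (m : Fin r → ℕ) (x : ℕ) :
    (P D S m x : ℝ) = ∑ p ∈ PP x, iP (p ∈ S) * ∏ i, iP ((d i).Q p (m i : ZMod p)) := by
  classical
  have h1 : ∀ p ∈ PP x, iP (p ∈ S) * ∏ i, iP ((d i).Q p (m i : ZMod p)) =
      if (p ∈ S ∧ ∀ i, orderOf ((D i * (m i : ℤ) ^ 2 : ℤ) : ZMod p) = p - 1) then 1 else 0 := by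
    intro p _
    rw [iP_forall, iP_and]
    have h2 : (p ∈ S ∧ ∀ i, (d i).Q p (m i : ZMod p)) ↔
        (p ∈ S ∧ ∀ i, orderOf ((D i * (m i : ℤ) ^ 2 : ℤ) : ZMod p) = p - 1) := by
      apply and_congr_right
      intro _
      apply forall_congr'
      intro i
      rw [hd]
      push_cast
      rfl
    split_ifs with h
    · exact iP_true (h2.2 h)
    · exact iP_false fun h' => h (h2.1 h')
  rw [Finset.sum_congr rfl h1, ← Finset.sum_filter, Finset.sum_const, nsmul_eq_mul, mul_one]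
  congr 1
  unfold P
  apply Nat.subtype_card
  intro p
  unfold PP
  rw [mem_filter, mem_filter, mem_range]
  constructor
  · rintro ⟨⟨h3, h4⟩, h5, h6⟩
    exact ⟨by omega, h4, h5, h6⟩
  · rintro ⟨h3, h4, h5, h6⟩
    exact ⟨⟨by omega, h4⟩, h5, h6⟩

lemma dev_eq {r : ℕ} (D : Fin r → ℤ) (hD : ∀ i, Squarefree (D i) ∧ D i % 4 = 1 ∧ D i ≠ 1)
    (S : Set ℕ) (m : Fin r → ℕ) (x : ℕ) :
    devT (fun i => dSq (D i) (hD i).1 (hD i).2.1 (hD i).2.2) (fun p => iP (p ∈ S)) m x =
      (P D S m x : ℝ) - E D S x := by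
  classical
  have h1 : E D S x = ∑ p ∈ PP x, iP (p ∈ S) *
      ∏ i, (dSq (D i) (hD i).1 (hD i).2.1 (hD i).2.2).G p := by
    unfold E
    have h2 : (range (x + 1)).filter (fun p => p.Prime ∧ p ∈ S) = (PP x).filter (fun p => p ∈ S) := by
      unfold PP
      rw [Finset.filter_filter]
    rw [h2, Finset.sum_filter]
    refine Finset.sum_congr rfl fun p hp => ?_
    have hpp : p.Prime := (mem_filter.1 hp).2
    have h3 : ∏ i, (dSq (D i) (hD i).1 (hD i).2.1 (hD i).2.2).G p = ∏ i, g (D i) p := by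
      refine Finset.prod_congr rfl fun i _ => ?_
      rw [g_eq, gd_eq (D i) (hD i).1 (hD i).2.1 (hD i).2.2 p hpp]
    rw [h3]
    split_ifs with h
    · rw [iP_true h, one_mul]
    · rw [iP_false h, zero_mul]
  rw [h1, P_eq D (fun i => dSq (D i) (hD i).1 (hD i).2.1 (hD i).2.2) (fun _ _ _ => Iff.rfl)]
  unfold devT
  rw [← Finset.sum_sub_distrib]
  exact Finset.sum_congr rfl fun p _ => by ring

/-- **Main theorem.** Let `D_1, ..., D_r` be squarefree integers, `≠ 1` and `≡ 1 mod 4`, and `ε > 0`.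
(1) For all large `N` and EVERY set `S` of primes, all but at most `N ^ (r - 1 + θ)` tuples `m ∈ [1, N] ^ r` satisfy
`|P D S m x - E D S x| ≤ ε π(x)` for EVERY `x` with `(log N) ^ C ≤ x ≤ exp ((log N) ^ B)`.
(2) For the primes `p ≡ a mod f` the sum `E` is asymptotic to `δ D f a π(x)`, so that the number of the primes
`p ≤ x`, `p ≡ a mod f`, modulo which all `D_i m_i ^ 2` are primitive roots is `(δ D f a + O(ε)) π(x)`.
(3) For one base and all primes, `δ` is the density of Q1. -/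
theorem result (θ C B : ℝ) (hθ : 1 / 2 < θ) (hθ1 : θ < 1) (hC : 1 / (2 * θ - 1) < C)
    (hB : B < 1 / (2 * (1 - θ))) (r : ℕ) (hr : 0 < r) (D : Fin r → ℤ)
    (hD : ∀ i, Squarefree (D i) ∧ D i % 4 = 1 ∧ D i ≠ 1) (ε : ℝ) (hε : 0 < ε) :
    (∃ N₀ : ℕ, ∀ N : ℕ, N₀ ≤ N → ∀ S : Set ℕ,
      (#(exceptions D S (E D S) ε C B N) : ℝ) ≤ (N : ℝ) ^ ((r : ℝ) - 1 + θ)) ∧
    (∀ f a : ℕ, 0 < f → a.Coprime f →
      Tendsto (fun x : ℕ => E D {p | p ≡ a [MOD f]} x / (Nat.primeCounting x : ℝ)) atTop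
        (𝓝 (δ D f a)) ∧
      ∃ N₀ : ℕ, ∀ N : ℕ, N₀ ≤ N →
        (#(exceptions D {p | p ≡ a [MOD f]} (fun x => δ D f a * (Nat.primeCounting x : ℝ)) ε C B N) : ℝ) ≤
          (N : ℝ) ^ ((r : ℝ) - 1 + θ)) ∧
    (∀ D₀ : ℤ, Squarefree D₀ → D₀ % 4 = 1 → D₀ ≠ 1 → δ (fun _ : Fin 1 => D₀) 1 1 =
      (1 - ((ArithmeticFunction.moebius D₀.natAbs : ℤ) : ℝ) *
        ∏ q ∈ D₀.natAbs.primeFactors, (1 / ((q : ℝ) ^ 2 - (q : ℝ) - 1))) *
      ∏' p : Nat.Primes, (1 - 1 / (((p : ℕ) : ℝ) * (((p : ℕ) : ℝ) - 1)))) := by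
  classical
  have h2θ : 0 < 2 * θ - 1 := by linarith
  have hC0 : 0 < C := lt_trans (by positivity) hC
  have hmain : ∀ ε' : ℝ, 0 < ε' → ∃ N₀ : ℕ, ∀ N : ℕ, N₀ ≤ N → ∀ S : Set ℕ,
      (#(exceptions D S (E D S) ε' C B N) : ℝ) ≤ (N : ℝ) ^ ((r : ℝ) - 1 + θ) := by
    intro ε' hε'
    obtain ⟨N₀, h0⟩ := tuples θ C B hθ hθ1 hC hB r
      (fun i => dSq (D i) (hD i).1 (hD i).2.1 (hD i).2.2) ε' hε'
    refine ⟨N₀, fun N hN S => ?_⟩
    refine le_trans (Nat.cast_le.2 (card_le_card ?_))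
      (h0 N hN (fun p => iP (p ∈ S)) fun p => ⟨iP_nonneg _, iP_le _⟩)
    intro m hm
    unfold exceptions at hm
    unfold badT
    rw [mem_filter] at hm ⊢
    obtain ⟨h1, x, h2, h3⟩ := hm
    refine ⟨h1, x, h2.1, h2.2, ?_⟩
    rw [dev_eq D hD]
    exact h3
  refine ⟨hmain ε hε, fun f a hf ha => ?_, fun D₀ h1 h2 h3 => ?_⟩
  · have hlim : Tendsto (fun x : ℕ => E D {p | p ≡ a [MOD f]} x / (Nat.primeCounting x : ℝ)) atTop
        (𝓝 (δ D f a)) := by
      rw [δ_eq]
      refine (dens_lim hr D (fun i => ⟨(hD i).1, (hD i).2.1⟩) f a hf ha).congr fun x => ?_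
      congr 1
      unfold E PP
      rw [Finset.filter_filter]
      exact Finset.sum_congr (by ext p; simp) fun _ _ => rfl
    refine ⟨hlim, ?_⟩
    have hev : ∀ᶠ x : ℕ in atTop, |E D {p | p ≡ a [MOD f]} x - δ D f a * (Nat.primeCounting x : ℝ)| ≤
        ε / 2 * (Nat.primeCounting x : ℝ) := by
      have h1 := (Metric.tendsto_nhds.1 hlim) (ε / 2) (by positivity)
      have hπ : ∀ᶠ x : ℕ in atTop, (1 : ℝ) ≤ (Nat.primeCounting x : ℝ) :=
        (tendsto_natCast_atTop_atTop.comp Nat.tendsto_primeCounting).eventually_ge_atTop _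
      filter_upwards [h1, hπ] with x h1 h2
      have hP0 : (0 : ℝ) < Nat.primeCounting x := by linarith
      rw [Real.dist_eq] at h1
      have e1 : E D {p | p ≡ a [MOD f]} x - δ D f a * (Nat.primeCounting x : ℝ) =
          (E D {p | p ≡ a [MOD f]} x / (Nat.primeCounting x : ℝ) - δ D f a) *
            (Nat.primeCounting x : ℝ) := by
        field_simp
      rw [e1, abs_mul, abs_of_pos hP0]
      exact mul_le_mul_of_nonneg_right h1.le hP0.le
    obtain ⟨x₀, hx₀⟩ := eventually_atTop.1 hev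
    obtain ⟨N₁, hN₁⟩ := hmain (ε / 2) (by positivity)
    obtain ⟨N₂, hN₂⟩ := eventually_atTop.1
      (((tendsto_rpow_atTop hC0).comp tlog).eventually_ge_atTop (x₀ : ℝ))
    refine ⟨max N₁ N₂, fun N hN => ?_⟩
    refine le_trans (Nat.cast_le.2 (card_le_card ?_))
      (hN₁ N ((le_max_left _ _).trans hN) {p | p ≡ a [MOD f]})
    intro m hm
    unfold exceptions at hm ⊢
    rw [mem_filter] at hm ⊢
    obtain ⟨h1, x, h2, h3⟩ := hm
    refine ⟨h1, x, h2, ?_⟩
    have h4 : x₀ ≤ x := by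
      have h5 : (x₀ : ℝ) ≤ (Real.log N) ^ C := hN₂ N ((le_max_right _ _).trans hN)
      exact_mod_cast h5.trans h2.1
    have h5 := hx₀ x h4
    have h6 := abs_sub_le (P D {p | p ≡ a [MOD f]} m x : ℝ) (E D {p | p ≡ a [MOD f]} x)
      (δ D f a * (Nat.primeCounting x : ℝ))
    linarith
  · rw [δ_eq, dens_one D₀ h1 h2 h3]
    rfl

end Pool.Agent.Results.MP_991e92_nt.SimultaneousBases
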