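import Mathlib
import Pool.Agent.N430.PS.Dens
import Pool.Agent.K6.H61.AF.SumSet

set_option autoImplicit false

/-! # Artin's conjecture for almost all the sums of two arbitrary sets of integers

Let `P(n, x)` be the number of primes `p ≤ x` modulo which `n` is a primitive root. For an integer `B` and
an exponent `r ≥ 1` let `E(B, r, x) = ∑_{p ≤ x} G(B, r, p)`, where `G(B, r, p)` is the proportion of the
`a ∈ [1, p - 1]` for which `B a ^ r` is a primitive root modulo `p`. For `D ≡ 1 mod 4` squarefree, `D ≠ 1`,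
`E(D, 2, x)` is asymptotic to `δ(D) π(x)`, with the density `δ(D)` of Q1.

Let `0 < η ≤ 1 / 4`. There are `c > 0` and `X₀` such that for all `Y ≥ X ≥ X₀` and ARBITRARY finite sets
`U`, `V` of integers of absolute value at most `exp (X ^ (1 / 2 - η))`, both with at least `Y ^ (1 - η)`
elements and with `|U| |V| ≥ Y ^ (2 + η)`: for all integers `B` and all `r ≥ 1`, all but a proportion
`X ^ (-c)` of the pairs `(u, v) ∈ U × V` satisfy `|P(B (u + v) ^ r, x) - E(B, r, x)| ≤ x ^ (1 - c)` for EVERY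
`x` with `X ≤ x ≤ Y`.

No structure of the sets is assumed, and they may be very sparse: they may have as few as
`(log N) ^ (2 + ε)` elements up to `N`. For `B = D`, `r = 2` the bases are the integers `D (u + v)²` with
squarefree part `D`, and the count is `δ(D) π(x)` up to an error `o(π(x))`.

Proof: variance over the pairs; the sums `∑ χ(u + v) ψ(u + v)`, `χ` modulo `p`, `ψ` modulo `p'`, are
bounded by the theorem of Cauchy and Schwarz and by the numbers of pairs of elements congruent modulo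
`p p'`, which are small on average over `p` and `p'`.

Library: helper430 (expansion of the indicator function, density). -/

namespace Pool.Agent.Results.MP_991e92_nt.SumsOfSets

open Finset Filter Topology Classical

/-- the number of primes `p ≤ x` modulo which `n` is a primitive root -/
noncomputable def P (n : ℤ) (x : ℕ) : ℕ :=
  ((Finset.range (x + 1)).filter (fun p : ℕ => p.Prime ∧ orderOf (n : ZMod p) = p - 1)).card

/-- the proportion of the `a` in `[1, p-1]` for which `B a ^ r` is a primitive root modulo `p` -/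
noncomputable def G (B : ℤ) (r p : ℕ) : ℝ :=
  (((Finset.Icc 1 (p - 1)).filter
    (fun a : ℕ => orderOf ((B * (a : ℤ) ^ r : ℤ) : ZMod p) = p - 1)).card : ℝ) / ((p : ℝ) - 1)

/-- `∑_{p ≤ x} G(B, r, p)` -/
noncomputable def E (B : ℤ) (r x : ℕ) : ℝ :=
  ∑ p ∈ (Finset.range (x + 1)).filter Nat.Prime, G B r p

/-- the density of Q1 for integers with squarefree part `D`:
`(1 - μ(|D|) ∏_{q ∣ D} 1 / (q² - q - 1)) ∏_p (1 - 1 / (p (p - 1)))` -/
noncomputable def δ (D : ℤ) : ℝ :=
  (1 - ((ArithmeticFunction.moebius D.natAbs : ℤ) : ℝ) *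
      ∏ q ∈ D.natAbs.primeFactors, (1 / ((q : ℝ) ^ 2 - (q : ℝ) - 1))) *
    ∏' p : Nat.Primes, (1 - 1 / (((p : ℕ) : ℝ) * (((p : ℕ) : ℝ) - 1)))

theorem result :
    (∀ D : ℤ, Squarefree D → D % 4 = 1 → D ≠ 1 →
      Tendsto (fun x : ℕ => E D 2 x / (Nat.primeCounting x : ℝ)) atTop (𝓝 (δ D))) ∧
    ∀ η : ℝ, 0 < η → η ≤ 1 / 4 → ∃ c : ℝ, 0 < c ∧ ∃ X₀ : ℕ, ∀ X Y : ℕ, X₀ ≤ X → X ≤ Y →
      ∀ U V : Finset ℤ, (∀ u ∈ U ∪ V, |(u : ℝ)| ≤ Real.exp ((X : ℝ) ^ (1 / 2 - η))) →
      (Y : ℝ) ^ (1 - η) ≤ U.card → (Y : ℝ) ^ (1 - η) ≤ V.card →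
      (Y : ℝ) ^ (2 + η) ≤ (U.card : ℝ) * V.card → ∀ (B : ℤ) (r : ℕ), 1 ≤ r →
      (((U ×ˢ V).filter (fun w : ℤ × ℤ => ∃ x : ℕ, X ≤ x ∧ x ≤ Y ∧
        (x : ℝ) ^ (1 - c) < |(P (B * (w.1 + w.2) ^ r) x : ℝ) - E B r x|)).card : ℝ) ≤
        (X : ℝ) ^ (-c) * ((U.card : ℝ) * V.card) := by
  refine ⟨?_, ?_⟩
  · intro D hD hD4 hD1
    exact Pool.Agent.N430.PS.EE_lim D hD hD4 hD1
  · intro η hη hη1
    obtain ⟨c, hc, X₀, h⟩ := Pool.Agent.K6.H61.AF.sumset η hη hη1
    refine ⟨c, hc, X₀, fun X Y hX hXY U V hUV hU hV hprod B r hr => ?_⟩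
    have h1 := h X Y hX hXY U V (fun a ha => hUV a (mem_union_left _ ha))
      (fun a ha => hUV a (mem_union_right _ ha)) hU hV hprod B r (by omega)
    exact h1

end Pool.Agent.Results.MP_991e92_nt.SumsOfSets
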